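import Pool.Agent.H73.GMS.Stmts

set_option autoImplicit false

open Classical

namespace GMS

theorem CTO : CTOStmt := by
  intro s hs
  have h1 : Cardinal.mk (ℕ → Bool) = Cardinal.continuum := by simp
  have h2 : Cardinal.continuum ≤ Cardinal.mk (Quotient s) := by
    by_contra hlt
    rw [not_le] at hlt
    have h3 : (Set.univ : Set (ℕ → Bool)) = ⋃ q : Quotient s, {y | Quotient.mk s y = q} := by
      ext y
      simp
    have h4 : Cardinal.mk (Set.univ : Set (ℕ → Bool))
        ≤ Cardinal.mk (Quotient s) * ⨆ q : Quotient s, Cardinal.mk {y | Quotient.mk s y = q} := by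
      rw [h3]
      exact Cardinal.mk_iUnion_le _
    have h5 : (⨆ q : Quotient s, Cardinal.mk {y | Quotient.mk s y = q}) ≤ Cardinal.aleph0 := by
      apply ciSup_le'
      intro q
      obtain ⟨x, rfl⟩ := Quotient.exists_rep q
      have h6 : {y | Quotient.mk s y = Quotient.mk s x} = {y | s.r x y} := by
        ext y
        constructor
        · intro h
          exact s.symm' (Quotient.exact h)
        · intro h
          exact Quotient.sound (s.symm' h)
      rw [h6]
      exact Cardinal.mk_le_aleph0_iff.2 (Set.countable_coe_iff.2 (hs x))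
    have h7 : Cardinal.mk (Quotient s)
        * (⨆ q : Quotient s, Cardinal.mk {y | Quotient.mk s y = q}) < Cardinal.continuum :=
      Cardinal.mul_lt_of_lt Cardinal.aleph0_le_continuum hlt
        (h5.trans_lt Cardinal.aleph0_lt_continuum)
    rw [Cardinal.mk_univ, h1] at h4
    exact absurd h7 (not_lt.2 h4)
  rw [← h1] at h2
  obtain ⟨e⟩ := Cardinal.le_def _ _ |>.1 h2
  refine ⟨fun x => (e x).out, fun x y hxy h => hxy (e.injective ?_)⟩
  have h8 : Quotient.mk s (e x).out = Quotient.mk s (e y).out := Quotient.sound h
  rw [Quotient.out_eq, Quotient.out_eq] at h8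
  exact h8

end GMS
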